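import Pool.Agent.R401.Tr10

/-!
# Local Euler factors, transferred from places of good reduction of another motive

Let `K` be a number field (for example `ℚ`) and let `V_ℓ` and `W_ℓ`, for all primes `ℓ`, be the
`ℓ`-adic realisations, in degrees of the same weight `w`, of two motives `M` and `N` over `K`. At
the places `v` outside a finite set the difference `a_v` of the traces of the geometric Frobenius
elements on `V_ℓ` and `W_ℓ` is a rational number which does not depend on `ℓ`, and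
`a_v ^ 2 ≤ C N(v) ^ w` (Deligne; Katz and Messing). The representations are not assumed to be
semisimple, and nothing is assumed about `V_ℓ` at the places of bad reduction.

Suppose that the traces for `M` and `N` are close to each other at most places: for a positive
integer `d`, the number `d a_v ^ 2` is an integral multiple of `N(v) ^ w` for `v` in a set of upper
density larger than `1 - 1 / (n ^ 2 + m ^ 2)`, where `n` and `m` are the ranks. (This holds for
example if the traces are equal at most places, or congruent modulo `N(v) ^ (w / 2)`.)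

Then at every finite place `v` at which `N` has good reduction the local factor
`det (1 - F_v T | V_ℓ ^ I_v)` of `M` is a polynomial with rational coefficients which does not
depend on `ℓ`, whatever the reduction of `M` at `v` is. Moreover `M` has potentially good reduction
at all these places, over one and the same finite extension of `K`.

Proof. Chebotarev's theorem for closed sets, Burnside's counting argument and the trace form show
that the difference of the traces on `V_ℓ (w / 2)` and `W_ℓ (w / 2)` is constant on the cosets of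
an open subgroup `U`, which is independent of `ℓ`. So the inertia group at `v` in `U` acts
unipotently on `V_ℓ`, and the eigenvalues of the Frobenius elements on `V_ℓ` are pure of weight `w`;
if the action were not trivial the tame relation would give two eigenvalues of different absolute
values. The traces of the powers of `F_v` on the inertia invariants are averages of traces on
`V_ℓ`, which are rational and independent of `ℓ`; they determine the local factor.
-/

set_option autoImplicit false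

namespace Pool.Agent.Results.MP_a3c811_ag.EulerFactorTransfer

open NumberField IsDedekindDomain Filter Matrix Polynomial

/-- the absolute Galois group of the field `K`, with the Krull topology -/
abbrev AbsGal (K : Type) [Field K] : Type := Gal(AlgebraicClosure K/K)

section
variable {K : Type} [Field K]

/-- `g` belongs to the inertia group at the ideal `Q` of the ring of all algebraic integers. -/
def InInertia (Q : Ideal (𝓞 (AlgebraicClosure K))) (g : AbsGal K) : Prop :=
  ∀ x : 𝓞 (AlgebraicClosure K), g • x - x ∈ Q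

/-- `g` is an arithmetic Frobenius element at `Q`, for a residue field with `q` elements of the
place below `Q`. -/
def FrobeniusAt (Q : Ideal (𝓞 (AlgebraicClosure K))) (q : ℕ) (g : AbsGal K) : Prop :=
  ∀ x : 𝓞 (AlgebraicClosure K), g • x - x ^ q ∈ Q

/-- `Q` is a maximal ideal of the ring of all algebraic integers which lies above the finite
place `v` of `K`. -/
def LiesAbove [NumberField K] (v : HeightOneSpectrum (𝓞 K))
    (Q : Ideal (𝓞 (AlgebraicClosure K))) : Prop :=
  Q.IsMaximal ∧ Q.comap (algebraMap (𝓞 K) (𝓞 (AlgebraicClosure K))) = v.asIdeal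

/-- the matrix of `g` -/
noncomputable def mat {F : Type} [Field F] {n : ℕ} (ρ : AbsGal K →* GL (Fin n) F) (g : AbsGal K) :
    Matrix (Fin n) (Fin n) F :=
  (ρ g : GL (Fin n) F)

/-- the vectors which are fixed by the inertia group at `Q` -/
def invariants {F : Type} [Field F] {n : ℕ} (ρ : AbsGal K →* GL (Fin n) F)
    (Q : Ideal (𝓞 (AlgebraicClosure K))) : Submodule F (Fin n → F) where
  carrier := {x | ∀ g, InInertia Q g → mat ρ g *ᵥ x = x}
  add_mem' := by
    intro x y hx hy g hg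
    rw [Matrix.mulVec_add, hx g hg, hy g hg]
  zero_mem' := by
    intro g _
    rw [Matrix.mulVec_zero]
  smul_mem' := by
    intro c x hx g hg
    rw [Matrix.mulVec_smul, hx g hg]

/-- `f` is the polynomial `det (1 - g T)` of `g` on the invariants of the inertia group at `Q`: if
`A` is the matrix of `g` with respect to a basis `b` of the invariants then `f = det (1 - A T)`. -/
def IsLocalFactor {F : Type} [Field F] {n : ℕ} (ρ : AbsGal K →* GL (Fin n) F)
    (Q : Ideal (𝓞 (AlgebraicClosure K))) (g : AbsGal K) (f : F[X]) : Prop :=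
  ∃ (m : ℕ) (b : Module.Basis (Fin m) F (invariants ρ Q)) (A : Matrix (Fin m) (Fin m) F),
    (∀ j, mat ρ g *ᵥ (b j : Fin n → F) = ∑ i, A i j • (b i : Fin n → F)) ∧
    f = (1 - (X : F[X]) • A.map C).det

/-- The family `W` has good reduction, pure of weight `w`, at the place `v`: for `ℓ` not below `v`
the inertia groups at `v` act trivially, and the characteristic polynomial of the geometric
Frobenius elements is one polynomial over `ℚ`, whose complex roots have absolute value
`N(v) ^ (w / 2)`. -/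
def GoodAt [NumberField K] {m : ℕ} (W : ∀ (ℓ : ℕ) [Fact ℓ.Prime], AbsGal K →* GL (Fin m) ℚ_[ℓ])
    (w : ℤ) (v : HeightOneSpectrum (𝓞 K)) : Prop :=
  ∃ h : ℚ[X], (∀ z : ℂ, (h.map (algebraMap ℚ ℂ)).IsRoot z →
      ‖z‖ ^ 2 = (Ideal.absNorm v.asIdeal : ℝ) ^ w) ∧
    ∀ (ℓ : ℕ) [Fact ℓ.Prime], (ℓ : 𝓞 K) ∉ v.asIdeal → ∀ Q, LiesAbove v Q →
      (∀ g, InInertia Q g → W ℓ g = 1) ∧
      ∀ g, FrobeniusAt Q (Ideal.absNorm v.asIdeal) g →
        (mat (W ℓ) g⁻¹).charpoly = h.map (algebraMap ℚ ℚ_[ℓ])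

end

/-- **Transfer of local Euler factors.** -/
theorem result {K : Type} [Field K] [NumberField K] {n m : ℕ}
    (V : ∀ (ℓ : ℕ) [Fact ℓ.Prime], AbsGal K →* GL (Fin n) ℚ_[ℓ])
    (hV : ∀ (ℓ : ℕ) [Fact ℓ.Prime], Continuous (V ℓ))
    (W : ∀ (ℓ : ℕ) [Fact ℓ.Prime], AbsGal K →* GL (Fin m) ℚ_[ℓ])
    (hW : ∀ (ℓ : ℕ) [Fact ℓ.Prime], Continuous (W ℓ)) (w : ℤ)
    -- the exceptional places, and the differences of the traces at the other places
    (B : Set (HeightOneSpectrum (𝓞 K))) (hB : B.Finite) (a : HeightOneSpectrum (𝓞 K) → ℚ)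
    (htr : ∀ (ℓ : ℕ) [Fact ℓ.Prime], ∀ v, v ∉ B → (ℓ : 𝓞 K) ∉ v.asIdeal → ∀ Q, LiesAbove v Q →
      ∀ g, FrobeniusAt Q (Ideal.absNorm v.asIdeal) g →
        (mat (V ℓ) g⁻¹).trace - (mat (W ℓ) g⁻¹).trace = (a v : ℚ_[ℓ]))
    (C : ℝ) (hC : ∀ v, v ∉ B → (a v : ℝ) ^ 2 ≤ C * (Ideal.absNorm v.asIdeal : ℝ) ^ w)
    -- most differences are divisible, up to a bounded denominator
    (d : ℕ) (hd : 0 < d) (θ : ℝ) (hθ : θ * ((n : ℝ) ^ 2 + (m : ℝ) ^ 2) < 1)
    (hdiv : ∃ᶠ x : ℕ in atTop, ({v : HeightOneSpectrum (𝓞 K) | Ideal.absNorm v.asIdeal ≤ x ∧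
      ¬ ∃ c : ℤ, (d : ℚ) * a v ^ 2 = (Ideal.absNorm v.asIdeal : ℚ) ^ w * c}.ncard : ℝ) ≤
        θ * Nat.primeCounting x) :
    ∃ U : Subgroup (AbsGal K), U.Normal ∧ IsOpen (U : Set (AbsGal K)) ∧
      ∀ v : HeightOneSpectrum (𝓞 K), GoodAt W w v → ∀ Q, LiesAbove v Q →
        (∀ (ℓ : ℕ) [Fact ℓ.Prime], (ℓ : 𝓞 K) ∉ v.asIdeal → ∀ g ∈ U, InInertia Q g → V ℓ g = 1) ∧
        ∀ g, FrobeniusAt Q (Ideal.absNorm v.asIdeal) g⁻¹ →
          ∃ P : ℚ[X], ∀ (ℓ : ℕ) [Fact ℓ.Prime], (ℓ : 𝓞 K) ∉ v.asIdeal → ∀ f : ℚ_[ℓ][X],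
            IsLocalFactor (V ℓ) Q g f ↔ f = P.map (algebraMap ℚ ℚ_[ℓ]) := by
  obtain ⟨u, φ, U, hw, hUn, hUo, hU, hφ⟩ := Pool.Agent.R401.Tr7.family V hV W hW B hB a w (by
      rintro ℓ _ v hv hℓ g ⟨Q, hQ, hQv, hg⟩
      exact htr ℓ v hv hℓ Q ⟨hQ, hQv⟩ g hg) C hC θ hθ hd (by
      refine (hdiv.and_eventually (Nat.tendsto_primeCounting.eventually_gt_atTop 0)).mono ?_
      rintro N ⟨h1, h3⟩
      have h4 : (0 : ℝ) < (Nat.primeCounting N : ℝ) := by exact_mod_cast h3
      unfold Pool.Agent.W401.Cheb.dens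
      rw [div_le_iff₀ h4]
      exact h1)
  refine ⟨U, hUn, hUo, ?_⟩
  rintro v ⟨h, hpur, hgood⟩ Q hQ
  have hq : 2 ≤ Ideal.absNorm v.asIdeal := by
    have h0 : Ideal.absNorm v.asIdeal ≠ 0 := fun h0 => v.ne_bot (Ideal.absNorm_eq_zero_iff.1 h0)
    have h1 : Ideal.absNorm v.asIdeal ≠ 1 := fun h1 =>
      v.isPrime.ne_top (Ideal.absNorm_eq_one_iff.1 h1)
    omega
  have hI : ∀ (ℓ : ℕ) [Fact ℓ.Prime] (x : Fin n → ℚ_[ℓ]), x ∈ invariants (V ℓ) Q ↔
      ∀ τ, Pool.Agent.W569.FM.InInertia Q τ → Pool.Agent.R401.Img.mt (V ℓ) τ *ᵥ x = x :=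
    fun ℓ _ x => Iff.rfl
  have hQℓ : ∀ ℓ : ℕ, (ℓ : 𝓞 (AlgebraicClosure K)) ∈ Q ↔ (ℓ : 𝓞 K) ∈ v.asIdeal := by
    intro ℓ
    rw [← hQ.2, Ideal.mem_comap, map_natCast]
  have hcast : ∀ (L : Type) [Field L] [CharZero L] (f : ℚ →+* L), Rat.castHom L = f :=
    fun L _ _ f => Subsingleton.elim _ _
  have key : ∀ g : AbsGal K, FrobeniusAt Q (Ideal.absNorm v.asIdeal) g⁻¹ → _ := fun g hg =>
    Pool.Agent.R401.Tr10.loc V hV W u φ U hUn hUo hU hφ hw hQ.1 hq hg
      (fun ℓ _ hℓ τ hτ => by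
        have h1 := (hgood ℓ (fun h' => hℓ ((hQℓ ℓ).2 h')) Q hQ).1 τ hτ
        unfold Pool.Agent.R401.Img.mt
        rw [h1]
        rfl) h
      (fun ℓ _ hℓ => by
        rw [hcast]
        exact (hgood ℓ (fun h' => hℓ ((hQℓ ℓ).2 h')) Q hQ).2 _ hg)
      (fun z hz => by
        rw [hcast ℂ (algebraMap ℚ ℂ)] at hz
        exact hpur z hz)
      (fun ℓ _ => invariants (V ℓ) Q) hI
  constructor
  · intro ℓ _ hℓ g hgU hg
    have hQm := hQ.1
    obtain ⟨σ, hσ⟩ := Pool.Agent.W352.ChAbs.exists_frob v Q hQ.2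
    have h1 := (key σ⁻¹ (by rwa [inv_inv])).1 ℓ (fun h' => hℓ ((hQℓ ℓ).1 h')) g hgU hg
    exact Units.ext h1
  · intro g hg
    obtain ⟨P, hP⟩ := (key g hg).2
    rw [inv_inv] at hP
    refine ⟨P, ?_⟩
    intro ℓ _ hℓ f
    have hℓQ : (ℓ : 𝓞 (AlgebraicClosure K)) ∉ Q := fun h' => hℓ ((hQℓ ℓ).1 h')
    constructor
    · rintro ⟨m, b, A, hA, rfl⟩
      rw [← hcast ℚ_[ℓ] (algebraMap ℚ ℚ_[ℓ])]
      exact hP ℓ hℓQ m b A hA
    · rintro rfl
      obtain ⟨m, b, A, hA⟩ := Pool.Agent.R401.Tr6.exists_basis (V ℓ) hq hg (hI ℓ)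
      rw [inv_inv] at hA
      refine ⟨m, b, A, hA, ?_⟩
      rw [← hcast ℚ_[ℓ] (algebraMap ℚ ℚ_[ℓ])]
      exact (hP ℓ hℓQ m b A hA).symm

end Pool.Agent.Results.MP_a3c811_ag.EulerFactorTransfer
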