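import Pool.Agent.R912.LI.Mat

set_option autoImplicit false
set_option linter.unusedSectionVars false
set_option linter.unusedVariables false

/-!
# Euler factors of motives in one degree control Weil–Deligne representations

Fix a prime `p` and an integer `i₀` (for instance `0`). We show: if for all Chow motives `M` over `ℚ` the
polynomial `P^i₀(M, T)` has rational coefficients independent of `ℓ ≠ p`, then for all `M`, all degrees
`i` and all `m` the character of the Weil group of `ℚ_p` on the kernel of `N ^ m` in `V^i_ℓ(M)` (`N` the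
monodromy operator) has rational values independent of `ℓ ≠ p`. So Q1 for one degree `i₀`, Q1 for all
degrees, and the independence of `ℓ` of the Frobenius-semisimple Weil–Deligne representations of all
motives are equivalent.

The proof. Tate twists change the degree by two, and the tensor product with `h^1` of an ordinary elliptic
curve by one, where the trace of `w` on the kernel of `N` is multiplied by a nonzero integer. The tensor
products with the Artin motives `h(Spec M)` give the traces of all elements of positive degree on the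
kernel of `N` (`Pool/Agent/R912/LI/Core.lean`), and the tensor product with `h^1` of a Tate curve shifts
the monodromy filtration (`Pool/Agent/R912/LI/Mono.lean`).
-/

open Module Polynomial Matrix

namespace Pool.Agent.Results.MP_a3c811_ag.OneDegreeSuffices

open Pool.Agent.R912.LI Pool.Agent.R912.LI.FRep

/-- The `ℓ`-adic realisations of Chow motives over `ℚ`, as representations of the Weil group of `ℚ_p` (a
geometric Frobenius has degree one). -/
structure MotSystem (p : ℕ) where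
  prime : p.Prime
  /-- the Weil group of `ℚ_p` -/
  G : WeilGroup
  /-- Chow motives over `ℚ` -/
  Mot : Type
  /-- the dimension of `V^i(M)` -/
  b : Mot → ℤ → ℕ
  /-- the action on `V^i_ℓ(M)`, in a basis -/
  V : (ℓ : Ell p) → (M : Mot) → (i : ℤ) → Rep G ℓ.Q (b M i)
  /-- an elliptic curve `E` over `ℚ` with split multiplicative reduction at `p`: `H^1(E)` has a basis
  `e₀, e₁` with `w e₀ = e₀` and `w e₁ = p ^ d(w) e₁ + c(w) e₀`, and `c` is not zero on any open subgroup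
  of inertia -/
  c : (ℓ : Ell p) → G.W → ℓ.Q
  cocycle : ∀ ℓ, Cocycle G (p : ℓ.Q) (c ℓ)
  c_ne : ∀ ℓ, ∀ J ∈ G.inert, ∃ σ ∈ J, c ℓ σ ≠ 0
  /-- Grothendieck's monodromy theorem -/
  monodromy : ∀ ℓ M i, ∃ N, Mono G (p : ℓ.Q) (c ℓ) (V ℓ M i) N
  /-- `M ⊗ h^1(E)` -/
  tensTate : Mot → Mot
  kunneth_tate : ∀ ℓ M i, Conj (V ℓ (tensTate M) (i + 1)) (tateMat G (p : ℓ.Q) (c ℓ) (V ℓ M i))
  /-- the trace of Frobenius of an elliptic curve `E'` over `ℚ` with good ordinary reduction at `p` -/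
  a : ℤ
  ordinary : ¬ (p : ℤ) ∣ a
  /-- `M ⊗ h^1(E')` -/
  tensOrd : Mot → Mot
  kunneth_ord : ∀ ℓ M i, Conj (V ℓ (tensOrd M) (i + 1)) (ordMat G (p : ℓ.Q) (a : ℓ.Q) (V ℓ M i))
  /-- the Tate twists `M(1)` and `M(-1)` -/
  plus : Mot → Mot
  twist_plus : ∀ ℓ M i, Conj (V ℓ (plus M) i) (twistMat G (p : ℓ.Q)⁻¹ (V ℓ M (i + 2)))
  minus : Mot → Mot
  twist_minus : ∀ ℓ M i, Conj (V ℓ (minus M) i) (twistMat G (p : ℓ.Q) (V ℓ M (i - 2)))
  /-- `M ⊗ h(Spec L)`, for a number field `L` with `L ⊗ ℚ_p` the fixed field of `U` -/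
  tensField : (U : Subgroup G.W) → Finite (G.W ⧸ U) → (∃ J ∈ G.inert, J ≤ U) → Mot → Mot
  kunneth_field : ∀ ℓ (U : Subgroup G.W) hf hU M i,
    IsProdField G U (V ℓ (tensField U hf hU M) i) (V ℓ M i)

theorem twist_isIso {K : Type} [Field K] {G : WeilGroup} {y c : ℕ} {q : K} (hq : q ≠ 0)
    {Y : Rep G K y} {C : Rep G K c} (h : Conj Y (twistMat G q C)) :
    (toF Y).IsIso (FRep.twist q hq (toF C)) := by
  refine conj_isIso Y h (B := FRep.twist q hq (toF C)) (LinearEquiv.refl K (Fin c → K)) fun w x => ?_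
  unfold twistMat
  rw [Matrix.smul_mulVec]
  rfl

theorem tateOnly_isIso {K : Type} [Field K] {G : WeilGroup} {y b : ℕ} {q : K} (hq : q ≠ 0)
    {κ : G.W → K} (hc : FRep.IsCocycle q κ) {Y : Rep G K y} {B : Rep G K b}
    (h : Conj Y (tateMat G q κ B)) : (toF Y).IsIso (FRep.tate q hq κ hc (toF B)) := by
  refine conj_isIso Y h (B := FRep.tate q hq κ hc (toF B))
    (LinearEquiv.sumArrowLequivProdArrow (Fin b) (Fin b) K K) fun w x => ?_
  unfold tateMat
  rw [Matrix.fromBlocks_mulVec, Matrix.zero_mulVec, zero_add, Matrix.smul_mulVec,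
    Matrix.smul_mulVec]
  rfl

theorem ordOnly_isIso {K : Type} [Field K] {G : WeilGroup} {y b : ℕ} {q t : K} (hq : q ≠ 0)
    {Y : Rep G K y} {B : Rep G K b} (h : Conj Y (ordMat G q t B)) :
    (toF Y).IsIso (FRep.tens (unrRep G q t hq) (toF B)) := by
  refine conj_isIso Y h (B := FRep.tens (unrRep G q t hq) (toF B))
    (LinearEquiv.curry K K (Fin 2) (Fin b)) fun w x => ?_
  refine funext fun i => funext fun j => ?_
  show (ordMat G q t B w *ᵥ x) (i, j) =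
    (∑ k, unrRep G q t hq w i k • (B w *ᵥ fun l => x (k, l))) j
  have h1 : unrRep G q t hq w = (comp2 q t) ^ G.d w := by
    unfold unrRep
    rw [MonoidHom.comp_apply, MonoidHom.comp_apply, zpowersHom_apply]
    show (((Matrix.GeneralLinearGroup.mkOfDetNeZero (comp2 q t) _) ^ (G.d w) :
      (Matrix (Fin 2) (Fin 2) K)ˣ) : Matrix (Fin 2) (Fin 2) K) = _
    rw [Matrix.coe_units_zpow]
    rfl
  rw [h1, Finset.sum_apply]
  unfold ordMat
  show ∑ s : Fin 2 × Fin b, (!![0, -q; 1, t] ^ G.d w) i s.1 * (B w) j s.2 * x s = _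
  rw [Fintype.sum_prod_type]
  refine Finset.sum_congr rfl fun k _ => ?_
  show _ = ((comp2 q t) ^ G.d w) i k * (∑ l, B w j l * x (k, l))
  rw [Finset.mul_sum]
  refine Finset.sum_congr rfl fun l _ => ?_
  rw [mul_assoc]
  rfl

namespace MotSystem

variable {p : ℕ} (C : MotSystem p)

/-- Q1 for `M` in degree `i`: the polynomial `P^i(M, T) = det (1 - F T | V^i_ℓ(M)^I)` has rational
coefficients and does not depend on `ℓ ≠ p` -/
def Q1 (M : C.Mot) (i : ℤ) : Prop :=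
  ∃ P : ℚ[X], ∀ ℓ : Ell p, ∃ (k : ℕ) (B : Matrix (Fin k) (Fin k) ℓ.Q),
    OnSub (Inv C.G (C.V ℓ M i)) (C.V ℓ M i C.G.frob) B ∧
      B.charpolyRev = P.map (Rat.castHom ℓ.Q)

/-- the character of the Weil group on the kernel of `N ^ m` in `V^i(M)` has rational values, which do
not depend on `ℓ ≠ p` -/
def WD (M : C.Mot) (i : ℤ) (m : ℕ) : Prop :=
  ∀ w, ∃ r : ℚ, ∀ ℓ : Ell p, ∃ (k : ℕ) (B : Matrix (Fin k) (Fin k) ℓ.Q),
    OnSub (Ker C.G (C.V ℓ M i) m) (C.V ℓ M i w) B ∧ B.trace = (r : ℓ.Q)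

/-- the representation on `V^i(M)` -/
noncomputable abbrev F (ℓ : Ell p) (M : C.Mot) (i : ℤ) : FRep ℓ.Q C.G := toF (C.V ℓ M i)

theorem eulRat_of_Q1 {M : C.Mot} {i : ℤ} (h : C.Q1 M i) : EulRat fun ℓ => C.F ℓ M i := by
  obtain ⟨P, hP⟩ := h
  refine eulRat_of_poly _ (RingHom.id ℚ) P fun ℓ => ?_
  obtain ⟨k, B, h1, h2⟩ := hP ℓ
  rw [← eul_inv (C.V ℓ M i) h1, h2]
  congr 1

theorem WD_iff {M : C.Mot} {i : ℤ} {m : ℕ} :
    C.WD M i m ↔ ∀ w, IsRat fun ℓ => (C.F ℓ M i).tr m w := by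
  constructor
  · intro h w
    obtain ⟨r, hr⟩ := h w
    refine ⟨r, fun ℓ => ?_⟩
    obtain ⟨k, B, h1, h2⟩ := hr ℓ
    rw [← h2, trace_ker (C.V ℓ M i) h1]
  · intro h w
    obtain ⟨r, hr⟩ := h w
    refine ⟨r, fun ℓ => ?_⟩
    obtain ⟨k, B, h1⟩ := exists_ker (C.V ℓ M i) m w
    exact ⟨k, B, h1, (trace_ker (C.V ℓ M i) h1).trans (hr ℓ)⟩

theorem Q1_of_WD {M : C.Mot} {i : ℤ} (h : C.WD M i 1) : C.Q1 M i := by
  obtain ⟨P, hP⟩ := poly_of_eulRat (fun ℓ => C.F ℓ M i) (eul_of_tr_one _ (C.WD_iff.1 h))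
  refine ⟨P, fun ℓ => ?_⟩
  obtain ⟨k, B, h1⟩ := exists_inv (C.V ℓ M i)
  exact ⟨k, B, h1, (eul_inv (C.V ℓ M i) h1).trans (hP ℓ)⟩

/-- the same for the elements of positive degree -/
def Pos (M : C.Mot) (i : ℤ) (m : ℕ) : Prop := ∀ w, 0 < C.G.d w → IsRat fun ℓ => (C.F ℓ M i).tr m w

theorem WD_of_Pos {M : C.Mot} {i : ℤ} {m : ℕ} (h : C.Pos M i m) : C.WD M i m :=
  C.WD_iff.2 (tr_all_of_pos _ m h)

/-- the powers of `p` -/
theorem isRat_pow (w : C.G.W) : IsRat fun ℓ : Ell p => (p : ℓ.Q) ^ C.G.d w :=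
  ⟨(p : ℚ) ^ C.G.d w, fun ℓ => by rw [Rat.cast_zpow, Rat.cast_natCast]⟩

theorem pos_of_Q1 {D : ℤ} (h : ∀ M, C.Q1 M D) (M : C.Mot) : C.Pos M D 1 := by
  refine tr_one_of_itr (fun ℓ => C.F ℓ M D) fun U hf hU k => ?_
  refine (itr_of_eul _ (C.eulRat_of_Q1 (h (C.tensField U hf hU M))) k).congr fun ℓ => ?_
  exact (itr_iso (perm_isIso (C.kunneth_field ℓ U hf hU M D)) _).symm

theorem tr_ord (ℓ : Ell p) (M : C.Mot) (i : ℤ) (m : ℕ) (w : C.G.W) :
    (C.F ℓ (C.tensOrd M) (i + 1)).tr m w =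
      (unrRep C.G (p : ℓ.Q) (C.a : ℓ.Q) (cast_ne C.prime ℓ) w).trace * (C.F ℓ M i).tr m w := by
  rw [tr_iso (ordOnly_isIso (cast_ne C.prime ℓ) (C.kunneth_ord ℓ M i)), tr_tens]
  intro σ hσ
  have h := unrRep_apply C.G (p : ℓ.Q) (C.a : ℓ.Q) (cast_ne C.prime ℓ) (w := σ) (k := 0)
    (by rw [hσ]; rfl)
  rw [h, pow_zero]

theorem tr_tateE (ℓ : Ell p) (M : C.Mot) (i : ℤ) (m : ℕ) (w : C.G.W) (hw : 0 < C.G.d w) :
    (C.F ℓ (C.tensTate M) (i + 1)).tr (m + 1) w =
      (C.F ℓ M i).tr (m + 2) w + (p : ℓ.Q) ^ C.G.d w * (C.F ℓ M i).tr m w := by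
  obtain ⟨N, hN⟩ := C.monodromy ℓ M i
  rw [tr_iso (tateOnly_isIso (cast_ne C.prime ℓ) (C.cocycle ℓ) (C.kunneth_tate ℓ M i)),
    tr_tate (cast_ne C.prime ℓ) (C.cocycle ℓ) (C.c_ne ℓ) (Mono.isMono (C.V ℓ M i) hN) w ?_ m]
  obtain ⟨k, hk⟩ := Int.eq_ofNat_of_zero_le hw.le
  have hk0 : k ≠ 0 := by
    rintro rfl
    rw [hk] at hw
    exact absurd hw (by simp)
  rw [hk]
  intro h
  have h1 : ((p ^ k : ℕ) : ℓ.Q) = ((1 : ℕ) : ℓ.Q) := by
    rw [Nat.cast_pow, Nat.cast_one]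
    simpa using h
  have h2 : p ^ k = 1 := Nat.cast_injective h1
  have h3 := Nat.one_lt_pow hk0 C.prime.one_lt
  omega

/-- the trace of a power of Frobenius of the ordinary elliptic curve -/
theorem trace_ord (w : C.G.W) (hw : 0 < C.G.d w) : ∃ s : ℚ, s ≠ 0 ∧ ∀ ℓ : Ell p,
    (unrRep C.G (p : ℓ.Q) (C.a : ℓ.Q) (cast_ne C.prime ℓ) w).trace = (s : ℓ.Q) := by
  obtain ⟨k, hk⟩ := Int.eq_ofNat_of_zero_le (show 0 ≤ C.G.d w - 1 by omega)
  have hk' : C.G.d w = ((k + 1 : ℕ) : ℤ) := by push_cast; omega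
  refine ⟨(((comp2 (p : ℤ) C.a) ^ (k + 1)).trace : ℤ),
    Int.cast_ne_zero.2 (comp2_trace_ne C.prime C.ordinary k), fun ℓ => ?_⟩
  rw [unrRep_apply C.G _ _ _ hk', Rat.cast_intCast]
  have h1 := comp2_map (Int.castRingHom ℓ.Q) (p : ℤ) C.a
  have h2 := Matrix.map_pow (comp2 (p : ℤ) C.a) (Int.castRingHom ℓ.Q) (k + 1)
  have h3 : (Int.castRingHom ℓ.Q) (p : ℤ) = (p : ℓ.Q) := by simp
  have h4 : (Int.castRingHom ℓ.Q) C.a = (C.a : ℓ.Q) := by simp
  rw [h3, h4] at h1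
  rw [h1] at h2
  rw [← h2, Matrix.trace, Matrix.trace, Int.cast_sum]
  rfl

/-- changing the degree by two -/
theorem pos_plus {i : ℤ} {m : ℕ} (h : ∀ M, C.Pos M i m) (M : C.Mot) : C.Pos M (i + 2) m := by
  intro w hw
  have hp : ((p : ℚ)⁻¹) ^ C.G.d w ≠ 0 :=
    zpow_ne_zero _ (inv_ne_zero (Nat.cast_ne_zero.2 C.prime.ne_zero))
  refine IsRat.cancel hp ((h (C.plus M) w hw).congr fun ℓ => ?_)
  rw [tr_iso (twist_isIso (inv_ne_zero (cast_ne C.prime ℓ)) (C.twist_plus ℓ M i)), tr_twist,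
    Rat.cast_zpow, Rat.cast_inv, Rat.cast_natCast]

theorem pos_minus {i : ℤ} {m : ℕ} (h : ∀ M, C.Pos M i m) (M : C.Mot) : C.Pos M (i - 2) m := by
  intro w hw
  have hp : (p : ℚ) ^ C.G.d w ≠ 0 := zpow_ne_zero _ (Nat.cast_ne_zero.2 C.prime.ne_zero)
  refine IsRat.cancel hp ((h (C.minus M) w hw).congr fun ℓ => ?_)
  rw [tr_iso (twist_isIso (cast_ne C.prime ℓ) (C.twist_minus ℓ M i)), tr_twist,
    Rat.cast_zpow, Rat.cast_natCast]

/-- lowering the degree by one -/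
theorem pos_pred {i : ℤ} {m : ℕ} (h : ∀ M, C.Pos M i m) (M : C.Mot) : C.Pos M (i - 1) m := by
  intro w hw
  obtain ⟨s, hs, hs'⟩ := C.trace_ord w hw
  refine IsRat.cancel hs ((h (C.tensOrd M) w hw).congr fun ℓ => ?_)
  have h1 := C.tr_ord ℓ M (i - 1) m w
  rw [sub_add_cancel] at h1
  rw [h1, ← hs' ℓ]

/-- raising the degree by one -/
theorem pos_succ {i : ℤ} {m : ℕ} (h : ∀ M, C.Pos M i m) (M : C.Mot) : C.Pos M (i + 1) m := by
  have h1 := C.pos_pred (C.pos_plus h) M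
  rwa [show i + 2 - 1 = i + 1 by ring] at h1

theorem pos_any {D : ℤ} {m : ℕ} (h : ∀ M, C.Pos M D m) (i : ℤ) : ∀ M, C.Pos M i m := by
  have up : ∀ k : ℕ, ∀ M, C.Pos M (D + k) m := by
    intro k
    induction k with
    | zero => simpa using h
    | succ k ih =>
      intro M
      have h1 := C.pos_succ ih M
      rwa [show D + (k : ℤ) + 1 = D + ((k + 1 : ℕ) : ℤ) by push_cast; ring] at h1
  have down : ∀ k : ℕ, ∀ M, C.Pos M (D - k) m := by
    intro k
    induction k with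
    | zero => simpa using h
    | succ k ih =>
      intro M
      have h1 := C.pos_pred ih M
      rwa [show D - (k : ℤ) - 1 = D - ((k + 1 : ℕ) : ℤ) by push_cast; ring] at h1
  rcases le_total D i with h1 | h1
  · obtain ⟨k, hk⟩ := Int.eq_ofNat_of_zero_le (show 0 ≤ i - D by omega)
    have h2 := up k
    rwa [show D + (k : ℤ) = i by rw [← hk]; ring] at h2
  · obtain ⟨k, hk⟩ := Int.eq_ofNat_of_zero_le (show 0 ≤ D - i by omega)
    have h2 := down k
    rwa [show D - (k : ℤ) = i by rw [← hk]; ring] at h2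

/-- the induction on `m` -/
theorem pos_all {D : ℤ} (h : ∀ M, C.Q1 M D) (m : ℕ) :
    (∀ M i, C.Pos M i m) ∧ ∀ M i, C.Pos M i (m + 1) := by
  induction m with
  | zero =>
    exact ⟨fun M i w _ => (isRat_const 0).congr fun ℓ => by rw [tr_zero, Rat.cast_zero],
      fun M i => C.pos_any (C.pos_of_Q1 h) i M⟩
  | succ m ih =>
    refine ⟨ih.2, fun M i w hw => ?_⟩
    refine ((ih.2 (C.tensTate M) (i + 1) w hw).sub ((C.isRat_pow w).mul (ih.1 M i w hw))).congr
      fun ℓ => ?_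
    rw [tr_tateE C ℓ M i m w hw]
    ring

end MotSystem

/-- **Euler factors of motives in one degree control Weil–Deligne representations.** Fix a degree `D`.
The following are equivalent: Q1 in degree `D` for all motives; Q1 in all degrees for all motives; for
all motives, all degrees `i` and all `m` the character of the Weil group on the kernel of `N ^ m` in
`V^i(M)` is rational and independent of `ℓ`. -/
theorem result {p : ℕ} (C : MotSystem p) (D : ℤ) :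
    ((∀ M, C.Q1 M D) ↔ ∀ M i, C.Q1 M i) ∧ ((∀ M, C.Q1 M D) ↔ ∀ M i m, C.WD M i m) := by
  have h1 : (∀ M, C.Q1 M D) → ∀ M i m, C.WD M i m :=
    fun h M i m => C.WD_of_Pos ((C.pos_all h m).1 M i)
  exact ⟨⟨fun h M i => C.Q1_of_WD (h1 h M i 1), fun h M => h M D⟩,
    ⟨h1, fun h M => C.Q1_of_WD (h M D 1)⟩⟩

end Pool.Agent.Results.MP_a3c811_ag.OneDegreeSuffices
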