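import Pool.Agent.R696.TF.Inv

/-!
# Independence of `ℓ` for local Euler factors of motives and trilinear forms

Let `p` be a prime number, `D` a decomposition group at `p` in the absolute Galois group of `ℚ`, `I` its
inertia subgroup and `φ` a geometric Frobenius. Let `𝓜` be the category of motives over `ℚ` for
absolute Hodge cycles, which is abelian and semisimple (Deligne), with its `ℓ`-adic realizations for
all primes `ℓ` (`Realizations`). For every separated scheme `X` of finite type over `ℚ` let `H_i(X)(-j)`
be the sum of the graded pieces `gr^W_w` of its Borel-Moore homology, twisted; these are objects of `𝓜`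
by the construction of Deligne of the weight filtration from smooth projective varieties (Jannsen),
and the long exact sequences of mixed realizations of a closed subscheme and its complement give long
exact sequences of the graded pieces in `𝓜` (`Homology`; for all the fields of this structure see
`Pool/Agent/R696/TF/Cat.lean`).

`EulerIndependent V p I φ A` (`Pool/Agent/R696/TF/Inv.lean`) says that the characteristic polynomial of
`φ` on `V_ℓ(A)^I`, which is `det(1 - T φ)` with the coefficients in reverse order, is in `ℚ[T]` and
the same for all primes `ℓ ≠ p`. `IndependentOn` says this for all submotives `A` of all `H_i(X)(-j)`.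
For smooth projective `X` these are all the motives `(X, π, r)`, `π` an idempotent absolute Hodge
correspondence (its parts of degree `i`), among them all Chow motives; so `IndependentOn` for all
smooth projective `X` implies Q1 for `p`, and it is Q1 for motives for absolute Hodge cycles.

Let `S` be the class of the smooth projective schemes. By resolution of singularities every smooth `X`
of dimension at most `d` is birational to a member of `S` of dimension at most `d` (`Models`). By the
theorem of Grothendieck on abelian varieties `IndependentOn` holds for smooth projective curves, the
submotives of `h^1` being given by abelian subvarieties of the Jacobian (`hlow`).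

The hypersurface of a trilinear form `T` over `ℚ` is the affine cubic hypersurface `T(x, y, z) = 1`
(`hypS T`), `x`, `y`, `z` being three blocks of variables of any sizes. It is smooth.

*Proof.* In a semisimple category the middle term of an exact sequence `A → B → D` and all its
subobjects are direct sums of subobjects of `A` and `D`, and characteristic polynomials are
multiplicative. So `IndependentOn` passes to the third of the schemes `X`, `Z`, `X - Z` from two of
them, and is invariant under affine bundles; now the universality of the trilinear forms (starting
library) applies.
-/

set_option autoImplicit false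

open CategoryTheory AlgebraicGeometry Pool.Agent.R696.TF Pool.Agent.Y116.UV

namespace Pool.Agent.Results.MP_a3c811_ag.TrilinearForms

universe u v

/-- The Euler factors at `p` of all submotives of the homology of `X` have rational coefficients and
are independent of `ℓ`. -/
def IndependentOn {𝓜 : Type u} [Category.{v} 𝓜] [Abelian 𝓜] {D : Type} [Group D]
    (V : Realizations 𝓜 D) (p : ℕ) (I : Subgroup D) [I.Normal] (φ : D) (H : Homology ℚ 𝓜)
    (X : Sch ℚ) : Prop :=
  ∀ (i j : ℤ) (A : 𝓜) (f : A ⟶ H.obj i j X) [Mono f], EulerIndependent V p I φ A

/-- **Independence of `ℓ` and trilinear forms.** Let `p` be a prime.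
1. The following are equivalent: independence of `ℓ` at `p` for the submotives of the smooth
   projective schemes (Q1 at `p` for motives for absolute Hodge cycles; this implies Q1 at `p`); for
   the submotives of the homology of all schemes; for the submotives of the homology of the
   hypersurfaces `T(x, y, z) = 1` of all trilinear forms over `ℚ`.
2. For every `d` the following are equivalent: independence of `ℓ` at `p` for the smooth projective
   schemes of dimension at most `d`; for all schemes of dimension at most `d`; for the hypersurfaces
   of the trilinear forms with a block of at most `d + 2` variables.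
3. Independence of `ℓ` at `p` holds for the hypersurfaces of the trilinear forms with a block of at
   most three variables.
4. The hypersurfaces are smooth. -/
theorem result (p : ℕ) (D : Type) [Group D] (I : Subgroup D) [I.Normal] (φ : D)
    (𝓜 : Type u) [Category.{v} 𝓜] [Abelian 𝓜] (hs : Semisimple 𝓜) (V : Realizations 𝓜 D)
    (H : Homology ℚ 𝓜) (S : Sch ℚ → Prop) (hpoint : S (aff ℚ ℚ)) (hS : Models S)
    (hlow : ∀ X : Sch ℚ, FT True X → S X → topologicalKrullDim X.left ≤ (1 : ℕ) →
      IndependentOn V p I φ H X) :
    ([∀ X : Sch ℚ, FT True X → S X → IndependentOn V p I φ H X,
      ∀ X : Sch ℚ, FT True X → IndependentOn V p I φ H X,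
      ∀ (a b c : ℕ) (T : Fin a → Fin b → Fin c → ℚ),
        IndependentOn V p I φ H (hypS T)].TFAE) ∧
    (∀ d : ℕ, [∀ X : Sch ℚ, FT True X → S X → topologicalKrullDim X.left ≤ d →
        IndependentOn V p I φ H X,
      ∀ X : Sch ℚ, FT True X → topologicalKrullDim X.left ≤ d → IndependentOn V p I φ H X,
      ∀ (a b c : ℕ) (T : Fin a → Fin b → Fin c → ℚ), (a ≤ d + 2 ∨ b ≤ d + 2 ∨ c ≤ d + 2) →
        IndependentOn V p I φ H (hypS T)].TFAE) ∧
    (∀ (a b c : ℕ) (T : Fin a → Fin b → Fin c → ℚ), (a ≤ 3 ∨ b ≤ 3 ∨ c ≤ 3) →
      IndependentOn V p I φ H (hypS T)) ∧
    ∀ (a b c : ℕ) (T : Fin a → Fin b → Fin c → ℚ), Smooth (hypS T).hom := by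
  obtain ⟨h1, h2, h3⟩ := main_her hs (euler_sumClosed V p I φ) H S hpoint hS 1 hlow
  exact ⟨h1, h2, h3, fun _ _ _ _ => Pool.Agent.Z125.UN.smooth_hypS _⟩

end Pool.Agent.Results.MP_a3c811_ag.TrilinearForms
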