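import Pool.Agent.R914.WD.Main

/-!
# The Euler factors of the twists of a motive determine its Weil–Deligne representation

Let `M` be a Chow motive over `ℚ`, `i` an integer and `p` a prime. By Grothendieck's monodromy theorem
`V_ℓ = V^i_ℓ(M)`, `ℓ ≠ p`, is given by a Weil–Deligne representation `(r_ℓ, N_ℓ)` of the Weil group `W`
of `ℚ_p`, and the invariants of an open subgroup `J` of the inertia group are the vectors of `ker N_ℓ`
which are fixed by `r_ℓ(J)`.

The problem asks whether the polynomials `det (1 - T Frob | V_ℓ^I)` are rational and independent of `ℓ`,
for all motives. A stronger form of the independence of `ℓ` (conjectured by Deligne and Fontaine) says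
that the whole Weil–Deligne representation is rational over `ℚ` and independent of `ℓ`, that is, for all
`w ∈ W` and all `j` the trace of `r_ℓ(w)` on `ker N_ℓ^j` is a rational number which does not depend on
`ℓ` (these traces determine the semisimplifications of the graded pieces of the monodromy filtration,
and thereby the Weil–Deligne representation with semisimple Frobenius).

*The theorem shows that the stronger form follows from the statement on Euler factors.* The Euler
factors used are those of the motives `M ⊗ Sym^k h^1(E) ⊗ h(Spec F)` for one elliptic curve `E` over `ℚ`
with split multiplicative reduction at `p` (after a Tate twist `Sym^k h^1(E)` has the Weil–Deligne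
representation `Sp(k+1)`) and for number fields `F` with a single place over `p` (every finite extension
of `ℚ_p` is the completion of such a field; the Euler factor of `M' ⊗ h(Spec F)` at `p` is the one of
`M'` over the completion, in the variable `T ^ f`). More precisely: for each `k`, the Euler factors of
`M ⊗ Sym^k h^1(E) ⊗ h(Spec F)` for all `F` give the traces of all elements of `W` (also of the inertia
group) on `ker N_ℓ^(k+1)`. For `k = 0` only the twists by Artin motives are used.

*Proof.* The kernel of the monodromy operator of `V ⊗ Sp(k+1)` is isomorphic, up to a twist by the `k`-th
power of the absolute value, to `ker N^(k+1)`. For two primes `ℓ`, `ℓ'` let `J` be the common kernel of the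
actions of the inertia group. The Euler factors for the extensions given by `J` and the elements `w` of
positive degree give the characteristic polynomials of `w` on `ker N^(k+1)`. For an arbitrary `w` and a
Frobenius `Φ` the traces of `w Φ^m`, `m ≥ 0`, satisfy a linear recurrence whose coefficients are those of
the characteristic polynomial of `Φ`; they are rational and the same for `ℓ` and `ℓ'`, and the last one
is not zero. As the traces are rational and equal for large `m`, they are so for `m = 0`.
-/

namespace Pool.Agent.Results.MP_a3c811_ag.TwistsDetermineWD

open Pool.Agent.R914.WD Polynomial

/-- **The Euler factors of the twists determine the Weil–Deligne representation**: if, for a family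
`D ℓ` of Weil–Deligne representations over fields `K ℓ` of characteristic zero, the Euler factors of
`D ℓ ⊗ Sp(k+1)` over all finite extensions of the local field are rational and independent of `ℓ`, then
the trace of every element of the Weil group on the kernel of `N ^ (k+1)` is rational and independent
of `ℓ`. -/
theorem result {W : Type} [Group W] [TopologicalSpace W] [IsTopologicalGroup W]
    {deg : W →* Multiplicative ℤ} (hs : Function.Surjective deg) {q : ℕ} [NeZero q]
    {Λ : Type} {K V : Λ → Type} [∀ ℓ, Field (K ℓ)] [∀ ℓ, CharZero (K ℓ)] [∀ ℓ, AddCommGroup (V ℓ)]
    [∀ ℓ, Module (K ℓ) (V ℓ)] [∀ ℓ, FiniteDimensional (K ℓ) (V ℓ)]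
    (D : ∀ ℓ, WDRep deg q (K ℓ) (V ℓ)) (k : ℕ) (h : EulerIndep D k) (w : W) :
    ∃ a : ℚ, ∀ ℓ, (D ℓ).tr (k + 1) w = a :=
  main hs D k h w

end Pool.Agent.Results.MP_a3c811_ag.TwistsDetermineWD
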